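import Pool.Agent.Q145.LQ.Stm
import Pool.Agent.Q111.SZ.CRT

/-!
# Project LQ (helper145), job CRTQ: from one prime to squarefree moduli

Adapted from `Pool/Agent/Q211/LS/Crts.lean`.
-/

set_option autoImplicit false
set_option linter.unusedSectionVars false

namespace Pool.Agent.Q124.LQ

open Finset Pool.Agent.Q145.SZ Pool.Agent.Q145.LQ
open Pool.Agent.Q111.SZ (mem_Us' unit_iff sum_Us_prod card_Us_prod)

theorem mem_GQ {W : ℕ} [NeZero W] {K : ℕ} (q : Fin K → Polynomial ℤ) (b : Fin K → ZMod W) (x : ZMod W) :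
    x ∈ GQ q b ↔ ∀ i, IsUnit (ev (q i) x + b i) := by
  classical
  unfold GQ
  rw [mem_filter]
  simp

/-- evaluation commutes with ring homomorphisms -/
theorem ev_map {W V : ℕ} (f : ZMod W →+* ZMod V) (q : Polynomial ℤ) (x : ZMod W) : f (ev q x) = ev q (f x) := by
  unfold ev
  exact (Polynomial.aeval_algHom_apply f.toIntAlgHom x q).symm

/-- the inequality for the modulus `W` -/
def PPq (d : ℕ) (C : ℝ) (W : ℕ) : Prop := ∀ [NeZero W] (k : ℕ) (q : Fin k → Polynomial ℤ) (c : Fin k → ZMod W) (v : Polynomial ℤ) (n m : ZMod W),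
  v.natDegree ≤ d → n ∈ GQ q c → m ∈ GQ q c →
  ((Us (ev v n) (ev v m)).card : ℝ) * ∑ β ∈ Us (ev v n) (ev v m), (((GQ (Fin.cons v q : Fin (k + 1) → Polynomial ℤ) (Fin.cons β c)).card : ℝ) ^ 4)⁻¹ ≤
    CC C W * (∑ β ∈ Us (ev v n) (ev v m), (((GQ (Fin.cons v q : Fin (k + 1) → Polynomial ℤ) (Fin.cons β c)).card : ℝ) ^ 2)⁻¹) ^ 2

section prod

variable {M N : ℕ} [NeZero M] [NeZero N] [NeZero (M * N)] (h : M.Coprime N)

theorem ev_fst (q : Polynomial ℤ) (x : ZMod (M * N)) :
    (ZMod.chineseRemainder h (ev q x)).1 = ev q (ZMod.chineseRemainder h x).1 :=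
  ev_map ((RingHom.fst (ZMod M) (ZMod N)).comp (ZMod.chineseRemainder h).toRingHom) q x

theorem ev_snd (q : Polynomial ℤ) (x : ZMod (M * N)) :
    (ZMod.chineseRemainder h (ev q x)).2 = ev q (ZMod.chineseRemainder h x).2 :=
  ev_map ((RingHom.snd (ZMod M) (ZMod N)).comp (ZMod.chineseRemainder h).toRingHom) q x

theorem mem_GQ_prod {K : ℕ} (q : Fin K → Polynomial ℤ) (b : Fin K → ZMod (M * N)) (x : ZMod (M * N)) :
    x ∈ GQ q b ↔ (ZMod.chineseRemainder h x).1 ∈ GQ q (fun i => (ZMod.chineseRemainder h (b i)).1) ∧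
      (ZMod.chineseRemainder h x).2 ∈ GQ q (fun i => (ZMod.chineseRemainder h (b i)).2) := by
  rw [mem_GQ, mem_GQ, mem_GQ]
  have hP : ∀ i, IsUnit (ev (q i) x + b i) ↔
      IsUnit (ev (q i) (ZMod.chineseRemainder h x).1 + (ZMod.chineseRemainder h (b i)).1) ∧
      IsUnit (ev (q i) (ZMod.chineseRemainder h x).2 + (ZMod.chineseRemainder h (b i)).2) := by
    intro i
    rw [unit_iff h, map_add, ← ev_fst h, ← ev_snd h]
    rfl
  simp only [hP, forall_and]

theorem card_GQ_prod {K : ℕ} (q : Fin K → Polynomial ℤ) (b : Fin K → ZMod (M * N)) :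
    (GQ q b).card = (GQ q (fun i => (ZMod.chineseRemainder h (b i)).1)).card *
      (GQ q (fun i => (ZMod.chineseRemainder h (b i)).2)).card := by
  classical
  rw [← card_product]
  refine Finset.card_bij (fun x _ => ZMod.chineseRemainder h x) ?_ ?_ ?_
  · intro x hx
    rw [mem_product]
    exact (mem_GQ_prod h q b x).mp hx
  · intro x _ y _ hxy
    exact (ZMod.chineseRemainder h).injective hxy
  · intro y hy
    rw [mem_product] at hy
    refine ⟨(ZMod.chineseRemainder h).symm y, ?_, RingEquiv.apply_symm_apply _ y⟩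
    rw [mem_GQ_prod h, RingEquiv.apply_symm_apply]
    exact hy

theorem cons_fst {k : ℕ} (c : Fin k → ZMod (M * N)) (β : ZMod (M * N)) :
    (fun i => (ZMod.chineseRemainder h ((Fin.cons β c : Fin (k + 1) → ZMod (M * N)) i)).1) =
      (Fin.cons (ZMod.chineseRemainder h β).1 (fun i => (ZMod.chineseRemainder h (c i)).1) :
        Fin (k + 1) → ZMod M) := by
  funext i
  refine Fin.cases ?_ (fun j => ?_) i
  · rfl
  · rfl

theorem cons_snd {k : ℕ} (c : Fin k → ZMod (M * N)) (β : ZMod (M * N)) :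
    (fun i => (ZMod.chineseRemainder h ((Fin.cons β c : Fin (k + 1) → ZMod (M * N)) i)).2) =
      (Fin.cons (ZMod.chineseRemainder h β).2 (fun i => (ZMod.chineseRemainder h (c i)).2) :
        Fin (k + 1) → ZMod N) := by
  funext i
  refine Fin.cases ?_ (fun j => ?_) i
  · rfl
  · rfl

theorem card_cons {k : ℕ} (q : Fin k → Polynomial ℤ) (c : Fin k → ZMod (M * N)) (v : Polynomial ℤ) (β : ZMod (M * N)) :
    (GQ (Fin.cons v q : Fin (k + 1) → Polynomial ℤ) (Fin.cons β c)).card =
      (GQ (Fin.cons v q : Fin (k + 1) → Polynomial ℤ)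
        (Fin.cons (ZMod.chineseRemainder h β).1 (fun i => (ZMod.chineseRemainder h (c i)).1))).card *
      (GQ (Fin.cons v q : Fin (k + 1) → Polynomial ℤ)
        (Fin.cons (ZMod.chineseRemainder h β).2 (fun i => (ZMod.chineseRemainder h (c i)).2))).card := by
  rw [card_GQ_prod h, cons_fst h c β, cons_snd h c β]

theorem sum_pow_prod {k : ℕ} (q : Fin k → Polynomial ℤ) (c : Fin k → ZMod (M * N)) (v : Polynomial ℤ) (n m : ZMod (M * N)) (e : ℕ) :
    ∑ β ∈ Us (ev v n) (ev v m), (((GQ (Fin.cons v q : Fin (k + 1) → Polynomial ℤ) (Fin.cons β c)).card : ℝ) ^ e)⁻¹ =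
      (∑ β ∈ Us (ev v (ZMod.chineseRemainder h n).1) (ev v (ZMod.chineseRemainder h m).1),
        (((GQ (Fin.cons v q : Fin (k + 1) → Polynomial ℤ) (Fin.cons β (fun i => (ZMod.chineseRemainder h (c i)).1))).card : ℝ) ^ e)⁻¹) *
      ∑ β ∈ Us (ev v (ZMod.chineseRemainder h n).2) (ev v (ZMod.chineseRemainder h m).2),
        (((GQ (Fin.cons v q : Fin (k + 1) → Polynomial ℤ) (Fin.cons β (fun i => (ZMod.chineseRemainder h (c i)).2))).card : ℝ) ^ e)⁻¹ := by
  have h1 := sum_Us_prod h (ev v n) (ev v m) (fun β => (((GQ (Fin.cons v q : Fin (k + 1) → Polynomial ℤ)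
      (Fin.cons β (fun i => (ZMod.chineseRemainder h (c i)).1))).card : ℝ) ^ e)⁻¹)
    (fun β => (((GQ (Fin.cons v q : Fin (k + 1) → Polynomial ℤ)
      (Fin.cons β (fun i => (ZMod.chineseRemainder h (c i)).2))).card : ℝ) ^ e)⁻¹)
  rw [ev_fst h, ev_fst h, ev_snd h, ev_snd h] at h1
  refine Eq.trans ?_ h1
  refine sum_congr rfl fun β _ => ?_
  rw [card_cons h, Nat.cast_mul, mul_pow, mul_inv]

theorem card_Us_prod' (v : Polynomial ℤ) (n m : ZMod (M * N)) : (Us (ev v n) (ev v m)).card =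
    (Us (ev v (ZMod.chineseRemainder h n).1) (ev v (ZMod.chineseRemainder h m).1)).card *
    (Us (ev v (ZMod.chineseRemainder h n).2) (ev v (ZMod.chineseRemainder h m).2)).card := by
  have h1 := card_Us_prod h (ev v n) (ev v m)
  rw [ev_fst h, ev_fst h, ev_snd h, ev_snd h] at h1
  exact h1

include h in
theorem CC_mul (C : ℝ) : CC C (M * N) = CC C M * CC C N := by
  unfold CC
  rw [h.primeFactors_mul, prod_union h.disjoint_primeFactors]

theorem CC_nonneg {C : ℝ} (hC : 0 < C) (W : ℕ) : 0 ≤ CC C W := prod_nonneg fun p _ => by positivity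

include h in
theorem PPq_mul {d : ℕ} {C : ℝ} (hC : 0 < C) (hM : PPq d C M) (hN : PPq d C N) : PPq d C (M * N) := by
  intro _ k q c v n m hv hn hm
  rw [sum_pow_prod h q c v n m 4, sum_pow_prod h q c v n m 2, card_Us_prod' h v n m, CC_mul h]
  obtain ⟨n1, n2⟩ := (mem_GQ_prod h q c n).mp hn
  obtain ⟨m1, m2⟩ := (mem_GQ_prod h q c m).mp hm
  have h1 := hM k _ _ v _ _ hv n1 m1
  have h2 := hN k _ _ v _ _ hv n2 m2
  have h3 := mul_le_mul h1 h2 (mul_nonneg (Nat.cast_nonneg _) (sum_nonneg fun _ _ => by positivity))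
    (mul_nonneg (CC_nonneg hC M) (sq_nonneg _))
  refine le_trans (le_of_eq ?_) (h3.trans (le_of_eq ?_))
  · push_cast
    ring
  · ring

end prod

theorem PPq_one (d : ℕ) (C : ℝ) : PPq d C 1 := by
  intro _ k q c v n m hv hn hm
  have hU : (Us (ev v n) (ev v m)).card = 1 := by
    rw [card_eq_one]
    refine ⟨0, ?_⟩
    ext β
    rw [mem_singleton, mem_Us']
    exact ⟨fun _ => Subsingleton.elim _ _,
      fun _ => ⟨isUnit_of_subsingleton _, isUnit_of_subsingleton _⟩⟩
  have hG : ∀ (u : Fin (k + 1) → Polynomial ℤ) (b : Fin (k + 1) → ZMod 1), (GQ u b).card = 1 := by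
    intro u b
    rw [card_eq_one]
    refine ⟨0, ?_⟩
    ext x
    rw [mem_singleton, mem_GQ]
    exact ⟨fun _ => Subsingleton.elim _ _, fun _ => fun _ => isUnit_of_subsingleton _⟩
  simp only [hG, sum_const, hU]
  unfold CC
  simp

/-- job CRTQ -/
theorem t_CRTQ : S_CRTQ := by
  intro d C hC hloc W _ hsq
  have key : ∀ W : ℕ, Squarefree W → PPq d C W := by
    intro W
    induction W using Nat.recOnPosPrimePosCoprime with
    | prime_pow p n hp hn =>
      intro hsq
      have hn1 : n = 1 := by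
        by_contra hne
        have h2 : 2 ≤ n := by omega
        have h3 : p * p ∣ p ^ n := by
          rw [← pow_two]
          exact pow_dvd_pow p h2
        exact hp.one_lt.ne' (Nat.isUnit_iff.mp (hsq p h3))
      subst hn1
      rw [pow_one]
      have : Fact p.Prime := ⟨hp⟩
      intro _ k q c v n m hv hn hm
      have h4 := hloc p k q c v n m hv hn hm
      have h5 : CC C p = 1 + C / (p : ℝ) := by
        unfold CC
        rw [hp.primeFactors, prod_singleton]
      rw [h5]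
      exact h4
    | zero => intro h; exact absurd h not_squarefree_zero
    | one => intro _; exact PPq_one d C
    | coprime a b ha hb hab iha ihb =>
      intro hsq
      have : NeZero a := ⟨by omega⟩
      have : NeZero b := ⟨by omega⟩
      have : NeZero (a * b) := ⟨mul_ne_zero (NeZero.ne a) (NeZero.ne b)⟩
      have h1 : PPq d C a := iha hsq.of_mul_left
      have h2 : PPq d C b := ihb hsq.of_mul_right
      intro _
      exact PPq_mul hab hC h1 h2
  intro k q c v n m hv hn hm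
  exact key W hsq k q c v n m hv hn hm

end Pool.Agent.Q124.LQ

namespace Pool.Agent.Q145.LQ

/-- job CRTQ -/
theorem t_CRTQ : S_CRTQ := Pool.Agent.Q124.LQ.t_CRTQ

end Pool.Agent.Q145.LQ
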