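import Pool.Agent.Q145.LQ.Stm

/-!
# Project LQ (helper145), job MOM2Q: the second moment

Adapted from `Pool/Agent/Q213/LS/Mom2.lean`.
-/

set_option autoImplicit false
set_option linter.unusedSectionVars false

namespace Pool.Agent.Q124.LQ.Mom2

open Finset Filter Pool.Agent.Q145.SZ Pool.Agent.Q145.LQ

lemma wt_nonneg (u : ℕ) : 0 ≤ wt u := by
  unfold wt
  split_ifs
  · exact Real.log_natCast_nonneg u
  · exact le_rfl

section

variable {W : ℕ} [NeZero W]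

lemma B2_nonneg (X n m : ℕ) (β : ZMod W) : 0 ≤ B2 X n m β := by
  unfold B2
  exact div_nonneg (Finset.sum_nonneg fun s _ => mul_nonneg (wt_nonneg _) (wt_nonneg _))
    (Nat.cast_nonneg _)

lemma one_le_vv : 1 ≤ vv W := by
  unfold vv
  have h1 : 0 < Nat.totient W := Nat.totient_pos.2 (Nat.pos_of_ne_zero (NeZero.ne W))
  rw [le_div_iff₀ (by exact_mod_cast h1), one_mul]
  exact_mod_cast Nat.totient_le W

lemma w2q_nonneg {K : ℕ} (q : Fin K → Polynomial ℤ) (n m : ZMod W) (b : Fin K → ZMod W) :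
    0 ≤ w2q q n m b := by
  unfold w2q
  split_ifs
  · positivity
  · exact le_rfl

lemma mem_GQ' {K : ℕ} {q : Fin K → Polynomial ℤ} {b : Fin K → ZMod W} {x : ZMod W} :
    x ∈ GQ q b ↔ ∀ i, IsUnit (ev (q i) x + b i) := by
  unfold GQ
  simp

lemma mem_Us' {n m β : ZMod W} : β ∈ Us n m ↔ IsUnit (n + β) ∧ IsUnit (m + β) := by
  unfold Us
  simp

lemma mem_AdQ {K : ℕ} {q : Fin K → Polynomial ℤ} {b : Fin K → ZMod W} :
    b ∈ AdQ W q ↔ (GQ q b).Nonempty := by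
  unfold AdQ
  simp

/-- the second moment over a product of classes -/
lemma sq_sum {K : ℕ} (Y : ℕ) (H : Fin K → ℕ) (q : Fin K → Polynomial ℤ) (b : Fin K → ZMod W) :
    (∑ s ∈ SbQ H b, wcQ Y q s ^ 2) / (SbQ H b).card =
      ∑ n ∈ Ioc Y (2 * Y), ∑ m ∈ Ioc Y (2 * Y), ∏ i, B2 (H i) (vq (q i) n) (vq (q i) m) (b i) := by
  have h1 : ∀ s : Fin K → ℕ, wcQ Y q s ^ 2 = ∑ n ∈ Ioc Y (2 * Y), ∑ m ∈ Ioc Y (2 * Y),
      ∏ i, (wt (vq (q i) n + s i) * wt (vq (q i) m + s i)) := by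
    intro s
    unfold wcQ
    rw [sq, Finset.sum_mul_sum]
    refine Finset.sum_congr rfl fun n _ => Finset.sum_congr rfl fun m _ => ?_
    rw [Finset.prod_mul_distrib]
  have h2 : ∑ s ∈ SbQ H b, wcQ Y q s ^ 2 = ∑ n ∈ Ioc Y (2 * Y), ∑ m ∈ Ioc Y (2 * Y),
      ∏ i, ∑ t ∈ cls (H i) (b i), wt (vq (q i) n + t) * wt (vq (q i) m + t) := by
    simp only [h1]
    rw [Finset.sum_comm]
    refine Finset.sum_congr rfl fun n _ => ?_
    rw [Finset.sum_comm]
    refine Finset.sum_congr rfl fun m _ => ?_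
    rw [Finset.prod_univ_sum]
    rfl
  have h3 : ((SbQ H b).card : ℝ) = ∏ i, ((cls (H i) (b i)).card : ℝ) := by
    unfold SbQ
    rw [Fintype.card_piFinset]
    push_cast
    rfl
  rw [h2, Finset.sum_div]
  refine Finset.sum_congr rfl fun n _ => ?_
  rw [Finset.sum_div]
  refine Finset.sum_congr rfl fun m _ => ?_
  rw [h3, ← Finset.prod_div_distrib]
  rfl

/-- the key identity -/
lemma term_eq {K : ℕ} {Y : ℕ} (hY : 0 < Y) (H : Fin K → ℕ) {n m : ℕ} (q : Fin K → Polynomial ℤ) (b : Fin K → ZMod W)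
    (h2' : ∀ i, ∀ β : ZMod W, β ∉ Us (ev (q i) (n : ZMod W)) (ev (q i) (m : ZMod W)) →
      B2 (H i) (vq (q i) n) (vq (q i) m) β = 0) :
    (∏ i, B2 (H i) (vq (q i) n) (vq (q i) m) (b i)) / MbQ Y q b ^ 2 =
      ((W : ℝ) / Y) ^ 2 *
      (w2q q (n : ZMod W) (m : ZMod W) b * ∏ i, (B2 (H i) (vq (q i) n) (vq (q i) m) (b i) / vv W ^ 2)) := by
  classical
  by_cases h : (n : ZMod W) ∈ GQ q b ∧ (m : ZMod W) ∈ GQ q b
  · have hg : (0 : ℝ) < (GQ q b).card := by
      exact_mod_cast Finset.card_pos.2 ⟨_, h.1⟩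
    have hv : (0 : ℝ) < vv W := lt_of_lt_of_le one_pos one_le_vv
    have hW : (0 : ℝ) < W := by exact_mod_cast Nat.pos_of_ne_zero (NeZero.ne W)
    have hY' : (0 : ℝ) < Y := by exact_mod_cast hY
    have e1 : w2q q (n : ZMod W) (m : ZMod W) b = (((GQ q b).card : ℝ) ^ 2)⁻¹ := by
      unfold w2q
      rw [if_pos h]
    rw [e1, Finset.prod_div_distrib]
    have e2 : ∏ _i : Fin K, vv W ^ 2 = (vv W ^ K) ^ 2 := by
      rw [Finset.prod_const, Finset.card_univ, Fintype.card_fin, ← pow_mul, ← pow_mul, mul_comm]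
    rw [e2]
    unfold MbQ
    field_simp
  · have e1 : w2q q (n : ZMod W) (m : ZMod W) b = 0 := by
      unfold w2q
      rw [if_neg h]
    have e2 : ∏ i, B2 (H i) (vq (q i) n) (vq (q i) m) (b i) = 0 := by
      have : ∃ i, b i ∉ Us (ev (q i) (n : ZMod W)) (ev (q i) (m : ZMod W)) := by
        by_contra hcon
        push Not at hcon
        exact h ⟨mem_GQ'.2 fun i => (mem_Us'.1 (hcon i)).1,
          mem_GQ'.2 fun i => (mem_Us'.1 (hcon i)).2⟩
      obtain ⟨i, hi⟩ := this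
      exact Finset.prod_eq_zero (Finset.mem_univ i) (h2' i _ hi)
    rw [e1, e2]
    simp

/-- the total weight -/
noncomputable def ws {K : ℕ} (q : Fin K → Polynomial ℤ) (c d : ZMod W) : ℝ :=
  ∑ b : Fin K → ZMod W, w2q q c d b

lemma ws_nonneg {K : ℕ} (q : Fin K → Polynomial ℤ) (c d : ZMod W) : 0 ≤ ws q c d :=
  Finset.sum_nonneg fun b _ => w2q_nonneg q c d b

lemma w2q_zero {K : ℕ} (q : Fin K → Polynomial ℤ) (c d : ZMod W) {b : Fin K → ZMod W} (hb : b ∉ AdQ W q) :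
    w2q q c d b = 0 := by
  unfold w2q
  rw [if_neg]
  rintro ⟨h, -⟩
  exact hb (mem_AdQ.2 ⟨c, h⟩)

lemma w2q_le_one {K : ℕ} (q : Fin K → Polynomial ℤ) (c d : ZMod W) (b : Fin K → ZMod W) : w2q q c d b ≤ 1 := by
  unfold w2q
  split_ifs with h
  · have hg : (1 : ℝ) ≤ (GQ q b).card := by
      exact_mod_cast Finset.card_pos.2 ⟨_, h.1⟩
    exact inv_le_one_of_one_le₀ (one_le_pow₀ hg)
  · exact zero_le_one

lemma ws_le {K : ℕ} (q : Fin K → Polynomial ℤ) (c d : ZMod W) : ws q c d ≤ (AdQ W q).card := by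
  classical
  unfold ws
  rw [← Finset.sum_subset (Finset.subset_univ (AdQ W q)) (fun b _ hb => w2q_zero q c d hb)]
  calc ∑ b ∈ AdQ W q, w2q q c d b ≤ ∑ _b ∈ AdQ W q, (1 : ℝ) := Finset.sum_le_sum fun b _ => w2q_le_one q c d b
    _ = _ := by simp

lemma sum_w2q {K : ℕ} (q : Fin K → Polynomial ℤ) {b : Fin K → ZMod W} (hb : b ∈ AdQ W q) :
    ∑ c : ZMod W, ∑ d : ZMod W, w2q q c d b = 1 := by
  classical
  have hg : (0 : ℝ) < (GQ q b).card := by
    exact_mod_cast Finset.card_pos.2 (mem_AdQ.1 hb)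
  have h1 : ∀ c : ZMod W, ∑ d : ZMod W, w2q q c d b = if c ∈ GQ q b then ((GQ q b).card : ℝ) * (((GQ q b).card : ℝ) ^ 2)⁻¹ else 0 := by
    intro c
    by_cases hc : c ∈ GQ q b
    · rw [if_pos hc]
      have e : ∀ d : ZMod W, w2q q c d b = if d ∈ GQ q b then (((GQ q b).card : ℝ) ^ 2)⁻¹ else 0 := by
        intro d
        unfold w2q
        by_cases hd : d ∈ GQ q b
        · rw [if_pos ⟨hc, hd⟩, if_pos hd]
        · rw [if_neg (fun h => hd h.2), if_neg hd]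
      simp only [e]
      rw [← Finset.sum_filter, Finset.filter_mem_eq_inter, Finset.univ_inter, Finset.sum_const, nsmul_eq_mul]
    · rw [if_neg hc]
      refine Finset.sum_eq_zero fun d _ => ?_
      unfold w2q
      rw [if_neg (fun h => hc h.1)]
  simp only [h1]
  rw [← Finset.sum_filter, Finset.filter_mem_eq_inter, Finset.univ_inter, Finset.sum_const, nsmul_eq_mul]
  field_simp

lemma sum_ws {K : ℕ} (q : Fin K → Polynomial ℤ) :
    ∑ c : ZMod W, ∑ d : ZMod W, ws q c d = ((AdQ W q).card : ℝ) := by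
  classical
  have h1 : ∑ c : ZMod W, ∑ d : ZMod W, ws q c d = ∑ b : Fin K → ZMod W, ∑ c : ZMod W, ∑ d : ZMod W, w2q q c d b := by
    unfold ws
    rw [Finset.sum_comm' (t' := univ) (s' := fun _ => univ) (by simp)]
    have : ∀ c : ZMod W, ∑ d : ZMod W, ∑ b : Fin K → ZMod W, w2q q c d b = ∑ b : Fin K → ZMod W, ∑ d : ZMod W, w2q q c d b :=
      fun c => Finset.sum_comm
    rw [Finset.sum_comm]
    simp only [this]
    rw [Finset.sum_comm]
  rw [h1, ← Finset.sum_subset (Finset.subset_univ (AdQ W q)) (fun b _ hb => by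
    refine Finset.sum_eq_zero fun c _ => Finset.sum_eq_zero fun d _ => w2q_zero q c d hb)]
  rw [Finset.sum_congr rfl fun b hb => sum_w2q q hb]
  simp

/-- generic bound of a product -/
lemma Q_le {K : ℕ} (H : Fin K → ℕ) (q : Fin K → Polynomial ℤ) (n m : ℕ) (c d : ZMod W) (D : ℝ) (S : Fin K → ℝ)
    (hD : 0 ≤ D) (hS : ∀ i, 0 ≤ S i)
    (hb : ∀ i, ∀ β : ZMod W, B2 (H i) (vq (q i) n) (vq (q i) m) β / vv W ^ 2 ≤ D * S i) :
    ∑ b : Fin K → ZMod W, w2q q c d b * ∏ i, (B2 (H i) (vq (q i) n) (vq (q i) m) (b i) / vv W ^ 2) ≤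
      D ^ K * (∏ i, S i) * (AdQ W q).card := by
  have h1 : ∀ b : Fin K → ZMod W, ∏ i, (B2 (H i) (vq (q i) n) (vq (q i) m) (b i) / vv W ^ 2) ≤ D ^ K * ∏ i, S i := by
    intro b
    calc ∏ i, (B2 (H i) (vq (q i) n) (vq (q i) m) (b i) / vv W ^ 2) ≤ ∏ i : Fin K, (D * S i) :=
          Finset.prod_le_prod (fun i _ => div_nonneg (B2_nonneg _ _ _ _) (sq_nonneg _))
            fun i _ => hb i (b i)
      _ = D ^ K * ∏ i, S i := by rw [Finset.prod_mul_distrib]; simp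
  have hDT : 0 ≤ D ^ K * ∏ i, S i := mul_nonneg (pow_nonneg hD K) (Finset.prod_nonneg fun i _ => hS i)
  calc ∑ b : Fin K → ZMod W, w2q q c d b * ∏ i, (B2 (H i) (vq (q i) n) (vq (q i) m) (b i) / vv W ^ 2)
      ≤ ∑ b : Fin K → ZMod W, w2q q c d b * (D ^ K * ∏ i, S i) :=
        Finset.sum_le_sum fun b _ => mul_le_mul_of_nonneg_left (h1 b) (w2q_nonneg q c d b)
    _ = D ^ K * (∏ i, S i) * ws q c d := by
      rw [← Finset.sum_mul, mul_comm]
      rfl
    _ ≤ D ^ K * (∏ i, S i) * (AdQ W q).card :=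
      mul_le_mul_of_nonneg_left (ws_le q c d) hDT

/-- pairs in general position -/
lemma Q_le' {d : ℕ} {C : ℝ} (hL : LAW2Q d C) (hW : Squarefree W) {K : ℕ} (H : Fin K → ℕ) (q : Fin K → Polynomial ℤ)
    (hq : ∀ i, (q i).natDegree ≤ d) (n m : ℕ)
    (S : Fin K → ℝ) (ε₂ : ℝ) (hS : ∀ i, 0 < S i) (hε : 0 ≤ ε₂)
    (h : ∀ i, ∑ β ∈ Us (ev (q i) (n : ZMod W)) (ev (q i) (m : ZMod W)),
      (B2 (H i) (vq (q i) n) (vq (q i) m) β - vv W ^ 2 * S i) ^ 2 ≤
      (ε₂ * vv W ^ 2 * S i) ^ 2 *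
        (Us (ev (q i) (n : ZMod W)) (ev (q i) (m : ZMod W))).card) :
    ∑ b : Fin K → ZMod W, w2q q (n : ZMod W) (m : ZMod W) b *
      ∏ i, (B2 (H i) (vq (q i) n) (vq (q i) m) (b i) / vv W ^ 2) ≤
      (1 + ε₂ * √(CC C W)) ^ K * ((∏ i, S i) * ws q (n : ZMod W) (m : ZMod W)) := by
  have hv : (0 : ℝ) < vv W := lt_of_lt_of_le one_pos one_le_vv
  have hvS : ∀ i, 0 < vv W ^ 2 * S i := fun i => mul_pos (by positivity) (hS i)
  have h1 := hL W hW K q hq (n : ZMod W) (m : ZMod W)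
    (fun i β => B2 (H i) (vq (q i) n) (vq (q i) m) β / (vv W ^ 2 * S i) - 1) ε₂ hε
    (fun i β _ => by
      have : 0 ≤ B2 (H i) (vq (q i) n) (vq (q i) m) β / (vv W ^ 2 * S i) := div_nonneg (B2_nonneg _ _ _ _) (hvS i).le
      linarith) (by
      intro i
      have e1 : ∀ β : ZMod W, (B2 (H i) (vq (q i) n) (vq (q i) m) β / (vv W ^ 2 * S i) - 1) ^ 2 =
          (B2 (H i) (vq (q i) n) (vq (q i) m) β - vv W ^ 2 * S i) ^ 2 / (vv W ^ 2 * S i) ^ 2 := by
        intro β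
        rw [← div_pow, sub_div, div_self (hvS i).ne']
      simp only [e1]
      rw [← Finset.sum_div, div_le_iff₀ (by have := hvS i; positivity)]
      refine (h i).trans (le_of_eq ?_)
      ring)
  have e2 : ∀ b : Fin K → ZMod W, w2q q (n : ZMod W) (m : ZMod W) b *
      ∏ i, (B2 (H i) (vq (q i) n) (vq (q i) m) (b i) / vv W ^ 2) =
      (∏ i, S i) * (w2q q (n : ZMod W) (m : ZMod W) b *
        ∏ i, (1 + (B2 (H i) (vq (q i) n) (vq (q i) m) (b i) / (vv W ^ 2 * S i) - 1))) := by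
    intro b
    have e3 : ∀ i, B2 (H i) (vq (q i) n) (vq (q i) m) (b i) / vv W ^ 2 =
        S i * (1 + (B2 (H i) (vq (q i) n) (vq (q i) m) (b i) / (vv W ^ 2 * S i) - 1)) := by
      intro i
      have := (hS i).ne'
      field_simp
      ring
    rw [Finset.prod_congr rfl fun i _ => e3 i, Finset.prod_mul_distrib]
    ring
  simp only [e2, ← Finset.mul_sum]
  calc (∏ i, S i) * ∑ b : Fin K → ZMod W, w2q q (n : ZMod W) (m : ZMod W) b *
        ∏ i, (1 + (B2 (H i) (vq (q i) n) (vq (q i) m) (b i) / (vv W ^ 2 * S i) - 1))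
      ≤ (∏ i, S i) * ((1 + ε₂ * √(CC C W)) ^ K * ws q (n : ZMod W) (m : ZMod W)) :=
        mul_le_mul_of_nonneg_left h1 (Finset.prod_nonneg fun i _ => (hS i).le)
    _ = _ := by ring

end

end Pool.Agent.Q124.LQ.Mom2

namespace Pool.Agent.Q145.LQ

open Finset Filter Pool.Agent.Q145.SZ
open Pool.Agent.Q124.LQ.Mom2

theorem t_MOM2Q : S_MOM2Q := by
  classical
  intro d C hC hL W _ Y K H q ε₂ C₀ D₀ H₀ e₂ N S E hW hWY hWH hq hpos hε hC₀ hD₀ hH he₂ hS H2 H2' H3 H4 HS HE HN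
  have hWp : 0 < W := Nat.pos_of_ne_zero (NeZero.ne W)
  have hYp : 0 < Y := lt_of_lt_of_le hWp hWY
  have hWr : (0 : ℝ) < W := by exact_mod_cast hWp
  have hYr : (0 : ℝ) < Y := by exact_mod_cast hYp
  have hv : (1 : ℝ) ≤ vv W := one_le_vv
  have hv0 : (0 : ℝ) < vv W := lt_of_lt_of_le one_pos hv
  have hv2 : (1 : ℝ) ≤ vv W ^ 2 := one_le_pow₀ hv
  set A : ℝ := ((AdQ W q).card : ℝ) with hA
  have hA0 : 0 ≤ A := Nat.cast_nonneg _
  set r : ℝ := (1 + ε₂ * √(CC C W)) ^ K with hr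
  have hr0 : 0 ≤ r := by rw [hr]; positivity
  set Q : ℕ → ℕ → ℝ := fun n m => ∑ b : Fin K → ZMod W, w2q q (n : ZMod W) (m : ZMod W) b *
    ∏ i, (B2 (H i) (vq (q i) n) (vq (q i) m) (b i) / vv W ^ 2) with hQ
  have hSp : ∀ n m : ℕ, 0 ≤ ∏ i, S i n m := fun n m => Finset.prod_nonneg fun i _ => (hS i n m).le
  -- reduction
  have h1 : ∑ b ∈ AdQ W q, (∑ s ∈ SbQ H b, (wcQ Y q s / MbQ Y q b) ^ 2) / (SbQ H b).card ≤
      ((W : ℝ) / Y) ^ 2 * ∑ n ∈ Ioc Y (2 * Y), ∑ m ∈ Ioc Y (2 * Y), Q n m := by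
    have e1 : ∀ b : Fin K → ZMod W,
        (∑ s ∈ SbQ H b, (wcQ Y q s / MbQ Y q b) ^ 2) / (SbQ H b).card =
        ∑ n ∈ Ioc Y (2 * Y), ∑ m ∈ Ioc Y (2 * Y),
          (∏ i, B2 (H i) (vq (q i) n) (vq (q i) m) (b i)) / MbQ Y q b ^ 2 := by
      intro b
      simp only [div_pow, ← Finset.sum_div]
      rw [div_right_comm, sq_sum]
    have e2 : ∀ b : Fin K → ZMod W, ∑ n ∈ Ioc Y (2 * Y), ∑ m ∈ Ioc Y (2 * Y),
        (∏ i, B2 (H i) (vq (q i) n) (vq (q i) m) (b i)) / MbQ Y q b ^ 2 =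
        ∑ n ∈ Ioc Y (2 * Y), ∑ m ∈ Ioc Y (2 * Y),
        ((W : ℝ) / Y) ^ 2 * (w2q q (n : ZMod W) (m : ZMod W) b *
          ∏ i, (B2 (H i) (vq (q i) n) (vq (q i) m) (b i) / vv W ^ 2)) := by
      intro b
      refine Finset.sum_congr rfl fun n hn => Finset.sum_congr rfl fun m hm => ?_
      exact term_eq hYp H q b fun i β hβ => H2' i n hn m hm β hβ
    simp only [e1, e2]
    rw [Finset.sum_comm, Finset.mul_sum]
    refine Finset.sum_le_sum fun n _ => ?_
    rw [Finset.sum_comm, Finset.mul_sum]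
    refine Finset.sum_le_sum fun m _ => ?_
    rw [← Finset.mul_sum]
    refine mul_le_mul_of_nonneg_left ?_ (sq_nonneg _)
    refine Finset.sum_le_sum_of_subset_of_nonneg (Finset.subset_univ _) fun b _ _ => ?_
    exact mul_nonneg (w2q_nonneg _ _ _ _) (Finset.prod_nonneg fun i _ =>
      div_nonneg (B2_nonneg _ _ _ _) (sq_nonneg _))
  -- bound of the terms
  have h2 : ∀ n ∈ Ioc Y (2 * Y), ∀ m ∈ Ioc Y (2 * Y), Q n m ≤
      (if okp q n m then r * ((∏ i, S i n m) * ws q (n : ZMod W) (m : ZMod W)) else 0) +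
      ((if (n, m) ∈ E ∧ okp q n m then (C₀ ^ K * A) * ∏ i, S i n m else 0) +
        (if ¬ okp q n m then D₀ ^ K * A else 0)) := by
    intro n hn m hm
    have p1 : 0 ≤ r * ((∏ i, S i n m) * ws q (n : ZMod W) (m : ZMod W)) :=
      mul_nonneg hr0 (mul_nonneg (hSp n m) (ws_nonneg _ _ _))
    by_cases hnm : okp q n m
    · rw [if_pos hnm, if_neg (not_not.2 hnm), add_zero]
      by_cases hE : (n, m) ∈ E
      · rw [if_pos ⟨hE, hnm⟩]
        have := Q_le H q n m (n : ZMod W) (m : ZMod W) C₀ (fun i => S i n m) hC₀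
          (fun i => (hS i n m).le) (fun i β => by
          rw [div_le_iff₀ (by positivity)]
          refine (H3 i n hn m hm hnm β).trans (le_of_eq ?_)
          ring)
        have h5 : Q n m ≤ (C₀ ^ K * A) * ∏ i, S i n m := by
          refine this.trans (le_of_eq ?_)
          ring
        linarith
      · rw [if_neg (by tauto), add_zero]
        exact Q_le' hL hW H q hq n m (fun i => S i n m) ε₂ (fun i => hS i n m) hε
          (fun i => H2 i n hn m hm hnm hE)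
    · rw [if_neg hnm, if_neg (fun h => hnm h.2), if_pos hnm, zero_add, zero_add]
      have := Q_le H q n m (n : ZMod W) (m : ZMod W) D₀ (fun _ => 1) hD₀
        (fun _ => zero_le_one) (fun i β => by
          rw [mul_one]
          exact (div_le_self (B2_nonneg _ _ _ _) hv2).trans (H4 i n hn m hm β))
      rw [Finset.prod_const_one, mul_one] at this
      exact this
  -- the three sums
  have h3 : ∑ n ∈ Ioc Y (2 * Y), ∑ m ∈ Ioc Y (2 * Y), Q n m ≤
      r * (((Y : ℝ) / W) ^ 2 * (1 + H₀) * A) +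
        ((C₀ ^ K * A) * (e₂ * (Y : ℝ) ^ 2) + (N * Y) * (D₀ ^ K * A)) := by
    refine (Finset.sum_le_sum fun n hn => Finset.sum_le_sum fun m hm => h2 n hn m hm).trans ?_
    simp only [Finset.sum_add_distrib]
    refine add_le_add ?_ (add_le_add ?_ ?_)
    · have e1 : ∑ n ∈ Ioc Y (2 * Y), ∑ m ∈ Ioc Y (2 * Y),
          (if okp q n m then r * ((∏ i, S i n m) * ws q (n : ZMod W) (m : ZMod W)) else 0) =
          r * ∑ c : ZMod W, ∑ e : ZMod W, ws q c e * ∑ n ∈ (Ioc Y (2 * Y)).filter (fun n : ℕ => (n : ZMod W) = c),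
            ∑ m ∈ (Ioc Y (2 * Y)).filter (fun m : ℕ => (m : ZMod W) = e ∧ okp q n m), ∏ i, S i n m := by
        have e2 : ∀ n : ℕ, ∑ m ∈ Ioc Y (2 * Y), (if okp q n m then r * ((∏ i, S i n m) * ws q (n : ZMod W) (m : ZMod W)) else 0) =
            ∑ e : ZMod W, ∑ m ∈ (Ioc Y (2 * Y)).filter (fun m : ℕ => (m : ZMod W) = e ∧ okp q n m),
              r * ((∏ i, S i n m) * ws q (n : ZMod W) e) := by
          intro n
          rw [← Finset.sum_fiberwise (s := Ioc Y (2 * Y)) (g := fun m : ℕ => (m : ZMod W))]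
          refine Finset.sum_congr rfl fun e _ => ?_
          rw [← Finset.sum_filter, Finset.filter_filter]
          refine Finset.sum_congr rfl fun m hm => ?_
          rw [(Finset.mem_filter.1 hm).2.1]
        have e3 : ∑ n ∈ Ioc Y (2 * Y), ∑ m ∈ Ioc Y (2 * Y),
            (if okp q n m then r * ((∏ i, S i n m) * ws q (n : ZMod W) (m : ZMod W)) else 0) =
            ∑ c : ZMod W, ∑ n ∈ (Ioc Y (2 * Y)).filter (fun n : ℕ => (n : ZMod W) = c),
            ∑ e : ZMod W, ∑ m ∈ (Ioc Y (2 * Y)).filter (fun m : ℕ => (m : ZMod W) = e ∧ okp q n m),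
              r * ((∏ i, S i n m) * ws q c e) := by
          simp only [e2]
          rw [← Finset.sum_fiberwise (s := Ioc Y (2 * Y)) (g := fun m : ℕ => (m : ZMod W))]
          refine Finset.sum_congr rfl fun c _ => Finset.sum_congr rfl fun n hn => ?_
          rw [(Finset.mem_filter.1 hn).2]
        rw [e3, Finset.mul_sum]
        refine Finset.sum_congr rfl fun c _ => ?_
        rw [Finset.sum_comm, Finset.mul_sum]
        refine Finset.sum_congr rfl fun e _ => ?_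
        rw [Finset.mul_sum, Finset.mul_sum]
        refine Finset.sum_congr rfl fun n _ => ?_
        rw [Finset.mul_sum, Finset.mul_sum]
        refine Finset.sum_congr rfl fun m _ => ?_
        ring
      rw [e1]
      refine mul_le_mul_of_nonneg_left ?_ hr0
      calc ∑ c : ZMod W, ∑ e : ZMod W, ws q c e * ∑ n ∈ (Ioc Y (2 * Y)).filter (fun n : ℕ => (n : ZMod W) = c),
            ∑ m ∈ (Ioc Y (2 * Y)).filter (fun m : ℕ => (m : ZMod W) = e ∧ okp q n m), ∏ i, S i n m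
          ≤ ∑ c : ZMod W, ∑ e : ZMod W, ws q c e * (((Y : ℝ) / W) ^ 2 * (1 + H₀)) :=
            Finset.sum_le_sum fun c _ => Finset.sum_le_sum fun e _ =>
              mul_le_mul_of_nonneg_left (HS c e) (ws_nonneg q c e)
        _ = ((Y : ℝ) / W) ^ 2 * (1 + H₀) * A := by
            simp only [← Finset.sum_mul]
            rw [sum_ws, mul_comm]
    · have e1 : ∑ n ∈ Ioc Y (2 * Y), ∑ m ∈ Ioc Y (2 * Y),
          (if (n, m) ∈ E ∧ okp q n m then (C₀ ^ K * A) * ∏ i, S i n m else 0) =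
          (C₀ ^ K * A) * ∑ x ∈ E.filter (fun x => x.1 ∈ Ioc Y (2 * Y) ∧
            x.2 ∈ Ioc Y (2 * Y) ∧ okp q x.1 x.2), ∏ i, S i x.1 x.2 := by
        rw [← Finset.sum_product', Finset.mul_sum, ← Finset.sum_filter]
        refine Finset.sum_congr ?_ fun q _ => rfl
        ext x
        simp only [Finset.mem_filter, Finset.mem_product, Prod.mk.eta]
        constructor
        · rintro ⟨⟨h1, h2⟩, h3, h4⟩
          exact ⟨h3, h1, h2, h4⟩
        · rintro ⟨h1, h2, h3, h4⟩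
          exact ⟨⟨h2, h3⟩, h1, h4⟩
      rw [e1]
      exact mul_le_mul_of_nonneg_left HE (mul_nonneg (pow_nonneg hC₀ K) hA0)
    · have e1 : ∑ n ∈ Ioc Y (2 * Y), ∑ m ∈ Ioc Y (2 * Y), (if ¬ okp q n m then D₀ ^ K * A else 0) =
          ((((Ioc Y (2 * Y)) ×ˢ (Ioc Y (2 * Y))).filter fun x : ℕ × ℕ => ¬ okp q x.1 x.2).card : ℝ) * (D₀ ^ K * A) := by
        rw [← Finset.sum_product', ← Finset.sum_filter, Finset.sum_const, nsmul_eq_mul]
      rw [e1]
      exact mul_le_mul_of_nonneg_right HN (mul_nonneg (pow_nonneg hD₀ K) hA0)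
  refine (h1.trans (mul_le_mul_of_nonneg_left h3 (sq_nonneg _))).trans (le_of_eq ?_)
  field_simp
  ring

end Pool.Agent.Q145.LQ
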