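import Pool.Agent.Q145.LQ.Stm

/-!
# Project LQ (helper145), jobs ESQ, PRQ, PRT
-/

set_option autoImplicit false
set_option linter.unusedSectionVars false

namespace Pool.Agent.Q124.LQ

open Finset Filter Pool.Agent.Q145.SZ Pool.Agent.Q145.LQ

lemma dst_natAbs (n m : ℕ) : dst n m = ((n : ℤ) - m).natAbs := by
  unfold dst
  omega

lemma vq_cast {q : Polynomial ℤ} {n : ℕ} (h : 0 ≤ q.eval (n : ℤ)) : (vq q n : ℤ) = q.eval (n : ℤ) := by
  unfold vq
  exact Int.toNat_of_nonneg h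

lemma dst_dvd {q : Polynomial ℤ} {n m : ℕ} (hn : 0 ≤ q.eval (n : ℤ)) (hm : 0 ≤ q.eval (m : ℤ)) :
    dst n m ∣ dst (vq q n) (vq q m) := by
  rw [dst_natAbs, dst_natAbs, vq_cast hn, vq_cast hm, Int.natAbs_dvd_natAbs]
  exact Polynomial.sub_dvd_eval_sub _ _ _

/-- the data of a pair -/
def code (q : Polynomial ℤ) (x : ℕ × ℕ) : (Σ _ : ℕ, ℕ) × (Bool × Bool) :=
  (⟨dst (vq q x.1) (vq q x.2), dst x.1 x.2⟩, (decide (x.1 < x.2), decide (vq q x.1 < vq q x.2)))

lemma dst_inj {a b c d : ℕ} (h1 : dst a b = dst c d) (h2 : decide (a < b) = decide (c < d)) :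
    (a : ℤ) - b = c - d := by
  unfold dst at h1
  rw [decide_eq_decide] at h2
  omega

lemma code_mem {q : Polynomial ℤ} {D : Finset ℕ} (h0 : 0 ∉ D) {n m : ℕ} (hn : 0 ≤ q.eval (n : ℤ)) (hm : 0 ≤ q.eval (m : ℤ))
    (h : dst (vq q n) (vq q m) ∈ D) : code q (n, m) ∈ (D.sigma fun h => h.divisors) ×ˢ (univ : Finset (Bool × Bool)) := by
  unfold code
  rw [mem_product, mem_sigma, Nat.mem_divisors]
  refine ⟨⟨h, dst_dvd hn hm, ?_⟩, mem_univ _⟩
  intro h1
  exact h0 (h1 ▸ h)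

lemma card_target (D : Finset ℕ) : ((D.sigma fun h => h.divisors) ×ˢ (univ : Finset (Bool × Bool))).card = 4 * ∑ h ∈ D, h.divisors.card := by
  rw [card_product, card_sigma]
  simp [mul_comm]

end Pool.Agent.Q124.LQ

namespace Pool.Agent.Q145.LQ

open Finset Filter Pool.Agent.Q145.SZ Pool.Agent.Q124.LQ

/-- job PRQ -/
theorem t_PRQ : S_PRQ := by
  intro Y q D hq hpos h0
  have hle : (((Ioc Y (2 * Y)) ×ˢ (Ioc Y (2 * Y))).filter fun x : ℕ × ℕ => dst (vq q x.1) (vq q x.2) ∈ D).card ≤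
      4 * ∑ h ∈ D, h.divisors.card := by
    rw [← card_target]
    refine card_le_card_of_injOn (code q) ?_ ?_
    · intro x hx
      rw [mem_coe, mem_filter, mem_product] at hx
      exact code_mem h0 (hpos _ hx.1.1) (hpos _ hx.1.2) hx.2
    · intro x hx y hy hxy
      rw [mem_coe, mem_filter, mem_product] at hx hy
      unfold code at hxy
      simp only [Prod.mk.injEq, Sigma.mk.injEq, heq_eq_eq] at hxy
      obtain ⟨⟨e1, e2⟩, e3, e4⟩ := hxy
      have k1 := dst_inj e2 e3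
      have k2 := dst_inj e1 e4
      rw [vq_cast (hpos _ hx.1.1), vq_cast (hpos _ hx.1.2), vq_cast (hpos _ hy.1.1), vq_cast (hpos _ hy.1.2)] at k2
      have hne : (x.1 : ℤ) - x.2 ≠ 0 := by
        intro h
        have hx12 : x.1 = x.2 := by omega
        have h1 := hx.2
        rw [hx12] at h1
        unfold dst at h1
        rw [Nat.sub_self] at h1
        exact h0 h1
      have hev : ∀ t : ℤ, q.eval t = q.coeff 0 + q.coeff 1 * t + q.coeff 2 * t ^ 2 := by
        intro t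
        rw [Polynomial.eval_eq_sum_range, hq]
        simp [Finset.sum_range_succ]
      have ha : q.coeff 2 ≠ 0 := by
        rw [← hq]
        have : q ≠ 0 := by
          rintro rfl
          simp at hq
        exact Polynomial.leadingCoeff_ne_zero.2 this
      rw [hev, hev, hev, hev] at k2
      have k3 : ((x.1 : ℤ) - x.2) * (q.coeff 2 * (((x.1 : ℤ) + x.2) - (y.1 + y.2))) = 0 := by
        have e : (y.1 : ℤ) - y.2 = x.1 - x.2 := k1.symm
        have k4 : ((x.1 : ℤ) - x.2) * (q.coeff 1 + q.coeff 2 * (x.1 + x.2)) = ((y.1 : ℤ) - y.2) * (q.coeff 1 + q.coeff 2 * (y.1 + y.2)) := by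
          linear_combination k2
        rw [e] at k4
        linear_combination k4
      have k5 := (mul_eq_zero.1 ((mul_eq_zero.1 k3).resolve_left hne)).resolve_left ha
      have r1 : x.1 = y.1 := by omega
      have r2 : x.2 = y.2 := by omega
      exact Prod.ext r1 r2
  exact_mod_cast hle

/-- job PRT -/
theorem t_PRT : S_PRT := by
  intro Y T G D hpos h0
  set qq : ℕ → Polynomial ℤ := fun t => G + Polynomial.C (t : ℤ) * Polynomial.X with hqq
  have hle : ∑ t ∈ Icc 1 T, (((Ioc Y (2 * Y)) ×ˢ (Ioc Y (2 * Y))).filter fun x : ℕ × ℕ => dst (vq (qq t) x.1) (vq (qq t) x.2) ∈ D).card ≤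
      Y * (4 * ∑ h ∈ D, h.divisors.card) := by
    have hT : Y * (4 * ∑ h ∈ D, h.divisors.card) =
        ((Ioc Y (2 * Y)) ×ˢ ((D.sigma fun h => h.divisors) ×ˢ (univ : Finset (Bool × Bool)))).card := by
      rw [card_product (Ioc Y (2 * Y)), card_target, Nat.card_Ioc]
      congr 1
      omega
    rw [← card_sigma, hT]
    refine card_le_card_of_injOn (fun z : (Σ _ : ℕ, ℕ × ℕ) => (z.2.1, code (qq z.1) z.2)) ?_ ?_
    · intro z hz
      rw [mem_coe, mem_sigma, mem_filter, mem_product] at hz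
      show (z.2.1, code (qq z.1) z.2) ∈ _
      rw [mem_coe, mem_product]
      refine ⟨hz.2.1.1, ?_⟩
      exact code_mem h0 (hpos _ hz.1 _ hz.2.1.1) (hpos _ hz.1 _ hz.2.1.2) hz.2.2
    · rintro ⟨t, x⟩ hx ⟨t', y⟩ hy hxy
      rw [mem_coe, mem_sigma, mem_filter, mem_product] at hx hy
      dsimp only at hx hy hxy
      unfold code at hxy
      simp only [Prod.mk.injEq, Sigma.mk.injEq, heq_eq_eq] at hxy
      obtain ⟨e0, ⟨e1, e2⟩, e3, e4⟩ := hxy
      have k1 := dst_inj e2 e3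
      have k2 := dst_inj e1 e4
      rw [vq_cast (hpos _ hx.1 _ hx.2.1.1), vq_cast (hpos _ hx.1 _ hx.2.1.2), vq_cast (hpos _ hy.1 _ hy.2.1.1),
        vq_cast (hpos _ hy.1 _ hy.2.1.2)] at k2
      have hne : (x.1 : ℤ) - x.2 ≠ 0 := by
        intro h
        have hx12 : x.1 = x.2 := by omega
        have h1 := hx.2.2
        rw [hx12] at h1
        unfold dst at h1
        rw [Nat.sub_self] at h1
        exact h0 h1
      have r2 : x.2 = y.2 := by omega
      have hxy : x = y := Prod.ext e0 r2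
      subst hxy
      simp only [Polynomial.eval_add, Polynomial.eval_mul, Polynomial.eval_C, Polynomial.eval_X] at k2
      have k3 : ((x.1 : ℤ) - x.2) * ((t : ℤ) - t') = 0 := by linear_combination k2
      have k4 := (mul_eq_zero.1 k3).resolve_left hne
      have : t = t' := by omega
      rw [this]
  have h2 : ((∑ t ∈ Icc 1 T, (((Ioc Y (2 * Y)) ×ˢ (Ioc Y (2 * Y))).filter fun x : ℕ × ℕ => dst (vq (qq t) x.1) (vq (qq t) x.2) ∈ D).card : ℕ) : ℝ) ≤
      ((Y * (4 * ∑ h ∈ D, h.divisors.card) : ℕ) : ℝ) := by exact_mod_cast hle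
  push_cast at h2
  refine h2.trans (le_of_eq ?_)
  ring

/-- job ESQ -/
theorem t_ESQ : S_ESQ := by
  classical
  intro W _ Y K q F E η hη hF hs hE
  have hWp : 0 < W := Nat.pos_of_ne_zero (NeZero.ne W)
  have hWr : (0 : ℝ) < W := by exact_mod_cast hWp
  set E' := E.filter (fun x => x.1 ∈ Ioc Y (2 * Y) ∧ x.2 ∈ Ioc Y (2 * Y) ∧ okp q x.1 x.2) with hE'
  have h1 : (∑ x ∈ E', F x.1 x.2) ^ 2 ≤ (E'.card : ℝ) * ∑ x ∈ E', F x.1 x.2 ^ 2 := sq_sum_le_card_mul_sum_sq
  have h2 : ∑ x ∈ E', F x.1 x.2 ^ 2 ≤ 2 * (Y : ℝ) ^ 2 := by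
    have hsub : E' ⊆ (Ioc Y (2 * Y) ×ˢ Ioc Y (2 * Y)).filter (fun x => okp q x.1 x.2) := by
      intro x hx
      rw [hE', mem_filter] at hx
      rw [mem_filter, mem_product]
      exact ⟨⟨hx.2.1, hx.2.2.1⟩, hx.2.2.2⟩
    have h3 := sum_le_sum_of_subset_of_nonneg (f := fun x : ℕ × ℕ => F x.1 x.2 ^ 2) hsub
      (fun x _ _ => sq_nonneg _)
    refine h3.trans ?_
    rw [sum_filter, sum_product]
    have e2 : ∀ n : ℕ, ∑ m ∈ Ioc Y (2 * Y), (if okp q n m then F n m ^ 2 else 0) =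
        ∑ e : ZMod W, ∑ m ∈ (Ioc Y (2 * Y)).filter (fun m : ℕ => (m : ZMod W) = e ∧ okp q n m), F n m ^ 2 := by
      intro n
      rw [← Finset.sum_fiberwise (s := Ioc Y (2 * Y)) (g := fun m : ℕ => (m : ZMod W))]
      refine Finset.sum_congr rfl fun e _ => ?_
      rw [← Finset.sum_filter, Finset.filter_filter]
    simp only [e2]
    rw [← Finset.sum_fiberwise (s := Ioc Y (2 * Y)) (g := fun m : ℕ => (m : ZMod W))]
    have h4 : ∀ c : ZMod W, ∑ n ∈ (Ioc Y (2 * Y)).filter (fun n : ℕ => (n : ZMod W) = c),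
        ∑ e : ZMod W, ∑ m ∈ (Ioc Y (2 * Y)).filter (fun m : ℕ => (m : ZMod W) = e ∧ okp q n m), F n m ^ 2 ≤
          (W : ℝ) * (((Y : ℝ) / W) ^ 2 * 2) := by
      intro c
      rw [sum_comm]
      calc _ ≤ ∑ _d : ZMod W, (((Y : ℝ) / W) ^ 2 * 2) := sum_le_sum fun d _ => hs c d
        _ = (W : ℝ) * (((Y : ℝ) / W) ^ 2 * 2) := by
          rw [sum_const, card_univ, ZMod.card, nsmul_eq_mul]
    calc _ ≤ ∑ _c : ZMod W, (W : ℝ) * (((Y : ℝ) / W) ^ 2 * 2) := sum_le_sum fun c _ => h4 c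
      _ = 2 * (Y : ℝ) ^ 2 := by
        rw [sum_const, card_univ, ZMod.card, nsmul_eq_mul]
        field_simp
  have h3 : (E'.card : ℝ) ≤ η ^ 2 * (Y : ℝ) ^ 2 := le_trans (by exact_mod_cast card_filter_le _ _) hE
  have h4 : (∑ x ∈ E', F x.1 x.2) ^ 2 ≤ (2 * η * (Y : ℝ) ^ 2) ^ 2 := by
    refine h1.trans ((mul_le_mul h3 h2 (sum_nonneg fun _ _ => sq_nonneg _) (by positivity)).trans ?_)
    have : 0 ≤ η ^ 2 * (Y : ℝ) ^ 4 := by positivity
    nlinarith
  exact (pow_le_pow_iff_left₀ (sum_nonneg fun _ _ => hF _ _) (by positivity) two_ne_zero).1 h4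

end Pool.Agent.Q145.LQ
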